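import Pool.Agent.Helper65_BSig.RRInt

/-!
# Freshness of the families of derivations
-/

namespace Pool.Agent.BSig.H65

open Pool.Agent.BSig Filter Cardinal

/-- `T` is the set of literals `(v p, p ∈ Sg)`, `p < j`. -/
def HasKind (κ : ℕ × Finset ℕ) (T : Finset (MM × Bool)) (v : ℕ → MM) : Prop :=
  ∀ q, q ∈ T ↔ ∃ p ∈ Finset.range κ.1, q = (v p, decide (p ∈ κ.2))

theorem exists_kind (T : Finset (MM × Bool)) :
    ∃ κ : ℕ × Finset ℕ, κ.1 = T.card ∧ κ.2 ⊆ Finset.range T.card ∧ ∃ v, HasKind κ T v := by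
  classical
  let g : ℕ → MM × Bool := fun p =>
    if h : p < T.card then ((T.equivFin.symm ⟨p, h⟩ : T) : MM × Bool) else (0, false)
  refine ⟨(T.card, (Finset.range T.card).filter fun p => (g p).2 = true), rfl,
    Finset.filter_subset _ _, fun p => (g p).1, fun q => ?_⟩
  have hg : ∀ p ∈ Finset.range T.card,
      ((g p).1, decide (p ∈ (Finset.range T.card).filter fun p => (g p).2 = true)) = g p := by
    intro p hp
    refine Prod.ext rfl ?_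
    show decide (p ∈ (Finset.range T.card).filter fun p => (g p).2 = true) = (g p).2
    rw [Bool.eq_iff_iff, decide_eq_true_iff, Finset.mem_filter]
    exact ⟨fun h => h.2, fun h => ⟨hp, h⟩⟩
  constructor
  · intro hq
    let a := T.equivFin ⟨q, hq⟩
    refine ⟨a, Finset.mem_range.2 a.2, ?_⟩
    show q = ((g a).1, decide ((a : ℕ) ∈ (Finset.range T.card).filter fun p => (g p).2 = true))
    rw [hg _ (Finset.mem_range.2 a.2)]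
    simp only [g, dif_pos a.2]
    simp [a]
  · rintro ⟨p, hp, e⟩
    have e' : q = g p := e.trans (hg p hp)
    rw [e']
    simp only [g, dif_pos (Finset.mem_range.1 hp)]
    exact Subtype.coe_prop _

/-- Weighted pigeonhole. -/
theorem pigeon {α : Type} (𝒦 : Finset α) (Q : α → (K : ℕ) → Prop) (P : ℕ → Prop)
    (h : ∀ K : α → ℕ, P ((∑ κ ∈ 𝒦, K κ) + 1) → ∃ κ ∈ 𝒦, Q κ (K κ)) (hP : ∀ k, P k) :
    ∃ κ ∈ 𝒦, ∀ K, Q κ K := by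
  by_contra hc
  push Not at hc
  choose! K hK using hc
  obtain ⟨κ, hκ, hQ⟩ := h K (hP _)
  exact hK κ hκ hQ

theorem big_kind {𝓕 : Set (Finset (MM × Bool))} {l : ℕ} (hl : ∀ F ∈ 𝓕, F.card ≤ l)
    {ρ : Finset (MM × Bool)} (hB : Big 𝓕 ρ) :
    ∃ κ : ℕ × Finset ℕ, ∀ K : ℕ, ∃ f : Fin K → Finset (MM × Bool),
      (∀ i, f i ∈ 𝓕 ∧ ρ ⊆ f i ∧ ∃ T v, (∀ q, q ∈ T ↔ q ∈ f i ∧ q ∉ ρ) ∧ HasKind κ T v) ∧
      ∀ i j, i ≠ j → ∀ p ∈ f i, p ∉ ρ → ∀ q ∈ f j, q ∉ ρ → p.1 ≠ q.1 := by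
  classical
  let 𝒦 : Finset (ℕ × Finset ℕ) := (Finset.range (l + 1)) ×ˢ (Finset.range l).powerset
  have key : ∃ κ ∈ 𝒦, ∀ K : ℕ, ∃ f : Fin K → Finset (MM × Bool),
      (∀ i, f i ∈ 𝓕 ∧ ρ ⊆ f i ∧ ∃ T v, (∀ q, q ∈ T ↔ q ∈ f i ∧ q ∉ ρ) ∧ HasKind κ T v) ∧
      ∀ i j, i ≠ j → ∀ p ∈ f i, p ∉ ρ → ∀ q ∈ f j, q ∉ ρ → p.1 ≠ q.1 := by
    refine pigeon 𝒦 (fun κ K => ∃ f : Fin K → Finset (MM × Bool),
      (∀ i, f i ∈ 𝓕 ∧ ρ ⊆ f i ∧ ∃ T v, (∀ q, q ∈ T ↔ q ∈ f i ∧ q ∉ ρ) ∧ HasKind κ T v) ∧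
      ∀ i j, i ≠ j → ∀ p ∈ f i, p ∉ ρ → ∀ q ∈ f j, q ∉ ρ → p.1 ≠ q.1)
      (fun k => ∃ f : Fin k → Finset (MM × Bool), (∀ i, f i ∈ 𝓕 ∧ ρ ⊆ f i) ∧
      ∀ i j, i ≠ j → ∀ p ∈ f i, p ∉ ρ → ∀ q ∈ f j, q ∉ ρ → p.1 ≠ q.1) ?_ hB
    rintro K ⟨f, hf, hd⟩
    have hk : ∀ i, ∃ κ ∈ 𝒦, ∃ v, HasKind κ (f i \ ρ) v := by
      intro i
      obtain ⟨κ, h1, h2, v, hv⟩ := exists_kind (f i \ ρ)
      have hc : (f i \ ρ).card ≤ l := (Finset.card_le_card Finset.sdiff_subset).trans (hl _ (hf i).1)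
      refine ⟨κ, ?_, v, hv⟩
      rw [Finset.mem_product]
      refine ⟨Finset.mem_range.2 (by omega), Finset.mem_powerset.2 (h2.trans ?_)⟩
      exact Finset.range_subset_range.2 hc
    choose κ hκ v hv using hk
    have h1 : (Finset.univ : Finset (Fin ((∑ κ ∈ 𝒦, K κ) + 1))).card =
        ∑ b ∈ 𝒦, ((Finset.univ.filter fun i => κ i = b)).card :=
      Finset.card_eq_sum_card_fiberwise fun i _ => hκ i
    rw [Finset.card_univ, Fintype.card_fin] at h1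
    obtain ⟨b, hb, hlt⟩ : ∃ b ∈ 𝒦, K b < ((Finset.univ.filter fun i => κ i = b)).card := by
      apply Finset.exists_lt_of_sum_lt
      omega
    refine ⟨b, hb, ?_⟩
    let e := Finset.orderEmbOfCardLe _ hlt.le
    have he : ∀ i, κ (e i) = b := fun i =>
      (Finset.mem_filter.1 (Finset.orderEmbOfCardLe_mem _ hlt.le i)).2
    refine ⟨fun i => f (e i), fun i => ⟨(hf _).1, (hf _).2, f (e i) \ ρ, v (e i), ?_, ?_⟩, ?_⟩
    · intro q; rw [Finset.mem_sdiff]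
    · have h5 := hv (e i)
      rw [he i] at h5
      exact h5
    · intro i j hij
      exact hd (e i) (e j) fun h => hij (e.injective h)
  obtain ⟨κ, _, h⟩ := key
  exact ⟨κ, h⟩

/-- The `N`-th condition. -/
def RF (φ : (Fin 5 → MM) → Prop) (l : ℕ) (t : MM) (ρ : Finset (MM × Bool))
    (κ : ℕ × Finset ℕ) (N : ℕ) (v : ℕ → MM) : Prop :=
  ∃ f, f ≤ aa l ∧ ((∀ u, u ≤ f → Mem u f → (∃ q ∈ ρ, u = lit q) ∨
      ∃ p ∈ Finset.range κ.1, u = lit (v p, decide (p ∈ κ.2))) ∧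
    (∀ q ∈ ρ, Mem (lit q) f) ∧
    (∀ p ∈ Finset.range κ.1, Mem (lit (v p, decide (p ∈ κ.2))) f) ∧
    Crd f (l : MM) ∧ ¬ Cfl f f ∧ Der φ (aa l) (l : MM) (N : MM) f t)

theorem intP_RF {φ : (Fin 5 → MM) → Prop} (hφ : IsDelta0 φ) (l : ℕ) (t : MM)
    (ρ : Finset (MM × Bool)) (κ : ℕ × Finset ℕ) (N P : ℕ) :
    IntP (fun v : Fin P → MM => RF φ l t ρ κ N (ext v)) := by
  apply IntP.of_delta0
  refine IsDelta0.ex (IsTerm.param _) ?_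
  refine IsDelta0.and ?_ (IsDelta0.and ?_ (IsDelta0.and ?_ (IsDelta0.and ?_ (IsDelta0.and ?_ ?_))))
  · refine IsDelta0.all (IsTerm.var 0) ?_
    refine (IsDelta0.mem (IsTerm.var 0) (IsTerm.var 1)).imp ?_
    refine IsDelta0.or ?_ ?_
    · refine IsDelta0.finsetEx _ _ fun q _ => ?_
      exact IsDelta0.eq (IsTerm.var 0) (IsTerm.param _)
    · refine IsDelta0.finsetEx _ _ fun p _ => ?_
      exact IsDelta0.eq (IsTerm.var 0) (isTerm_lit (isTerm_ext p).tail.tail _)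
  · refine IsDelta0.finsetAll _ _ fun q _ => ?_
    exact IsDelta0.mem (IsTerm.param _) (IsTerm.var 0)
  · refine IsDelta0.finsetAll _ _ fun p _ => ?_
    exact IsDelta0.mem (isTerm_lit (isTerm_ext p).tail _) (IsTerm.var 0)
  · exact IsDelta0.crd (IsTerm.var 0) (IsTerm.param _)
  · exact (IsDelta0.cfl (IsTerm.var 0) (IsTerm.var 0)).not
  · exact hφ.der (IsTerm.param _) (IsTerm.param _) (IsTerm.param _) (IsTerm.var 0) (IsTerm.param _)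

theorem le_lit (p : MM × Bool) : p.1 ≤ lit p := by
  unfold lit
  rw [two_mul, add_assoc]
  exact le_add_right' _ _

theorem side1 (φ : (Fin 5 → MM) → Prop) (l : ℕ) (t : MM) (ρ : Finset (MM × Bool))
    (κ : ℕ × Finset ℕ) : ∀ (N : ℕ) (v v' : ℕ → MM), (∀ p < κ.1, v p = v' p) →
      RF φ l t ρ κ N v → RF φ l t ρ κ N v' := by
  rintro N v v' hv ⟨f, hf, hu, hρ, hp, hr⟩
  have hv' : ∀ p ∈ Finset.range κ.1, v p = v' p := fun p hp => hv p (Finset.mem_range.1 hp)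
  refine ⟨f, hf, fun u hu1 hu2 => ?_, hρ, fun p hp' => ?_, hr⟩
  · rcases hu u hu1 hu2 with h | ⟨p, hp', e⟩
    · exact Or.inl h
    · exact Or.inr ⟨p, hp', by rw [← hv' p hp']; exact e⟩
  · rw [← hv' p hp']; exact hp p hp'

theorem side2 (h3 : KilStmt) {φ : (Fin 5 → MM) → Prop} (hφ : IsDelta0 φ) (l : ℕ) (t : MM)
    (ρ : Finset (MM × Bool)) (κ : ℕ × Finset ℕ) : ∀ (N : ℕ) (v : ℕ → MM),
      RF φ l t ρ κ (N + 1) v → RF φ l t ρ κ N v := by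
  rintro N v ⟨f, hf, hu, hρ, hp, hr1, hr2, hr3⟩
  refine ⟨f, hf, hu, hρ, hp, hr1, hr2, ?_⟩
  exact (h3 φ hφ).2.1 _ _ _ _ _ _ (natCast_le.2 (Nat.le_succ N)) hr3

theorem side3 (φ : (Fin 5 → MM) → Prop) (l : ℕ) (t : MM) (ρ : Finset (MM × Bool))
    (κ : ℕ × Finset ℕ) : ∀ N : ℕ, ∃ b : ℕ, ∀ v, RF φ l t ρ κ N v → ∀ p < κ.1, v p ≤ aa b := by
  intro N
  refine ⟨l, ?_⟩
  rintro v ⟨f, hf, hu, hρ, hp, hr⟩ p hp'
  have := hp p (Finset.mem_range.2 hp')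
  exact (le_lit (v p, decide (p ∈ κ.2))).trans ((mem_lt this).le.trans hf)

theorem side4 (h2 : RepBasics) (φ : (Fin 5 → MM) → Prop) (l : ℕ) (t : MM)
    (ρ : Finset (MM × Bool)) (κ : ℕ × Finset ℕ)
    (hκ : ∀ K : ℕ, ∃ f : Fin K → Finset (MM × Bool),
      (∀ i, f i ∈ Fam φ l t ∧ ρ ⊆ f i ∧
        ∃ T v, (∀ q, q ∈ T ↔ q ∈ f i ∧ q ∉ ρ) ∧ HasKind κ T v) ∧
      ∀ i j, i ≠ j → ∀ p ∈ f i, p ∉ ρ → ∀ q ∈ f j, q ∉ ρ → p.1 ≠ q.1) :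
    ∀ N K : ℕ, ∃ f : ℕ → ℕ → MM, (∀ k < K, RF φ l t ρ κ N (f k)) ∧
      ∀ k < K, ∀ k' < K, k ≠ k' → ∀ p ∈ (Set.univ : Set ℕ), p < κ.1 →
        ∀ p' ∈ (Set.univ : Set ℕ), p' < κ.1 → f k p ≠ f k' p' := by
  intro N K
  obtain ⟨g, hg, hd⟩ := hκ K
  choose T v hT hv using fun i => (hg i).2.2
  have hlab : ∀ i : Fin K, ∀ p ∈ Finset.range κ.1, (v i p, decide (p ∈ κ.2)) ∈ g i ∧
      (v i p, decide (p ∈ κ.2)) ∉ ρ := by
    intro i p hp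
    rw [← hT i]
    exact (hv i _).2 ⟨p, hp, rfl⟩
  refine ⟨fun k => if h : k < K then v ⟨k, h⟩ else fun _ => 0, fun k hk => ?_, ?_⟩
  · simp only [dif_pos hk]
    obtain ⟨i, hi⟩ : ∃ i : Fin K, i = ⟨k, hk⟩ := ⟨_, rfl⟩
    rw [← hi]
    obtain ⟨hc, hcons, f, hr, hf, hD⟩ := (hg i).1
    have hS' : ∀ q, q ∈ g i ↔ Mem (lit q) f := fun q =>
      Set.ext_iff.1 (show (g i : Set (MM × Bool)) = LS f from hr) q
    refine ⟨f, hf, fun u hu1 hu2 => ?_, fun q hq => (hS' q).1 ((hg i).2.1 hq),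
      fun p hp => (hS' _).1 (hlab i p hp).1, (crd_iff h2 hr).2 hc, (consis_iff h2 hr).1 hcons,
      hD N⟩
    obtain ⟨q, rfl⟩ := h2.1 u
    have hq := (hS' q).2 hu2
    by_cases hqρ : q ∈ ρ
    · exact Or.inl ⟨q, hqρ, rfl⟩
    · obtain ⟨p, hp, e⟩ := (hv i q).1 ((hT i q).2 ⟨hq, hqρ⟩)
      exact Or.inr ⟨p, hp, by rw [e]⟩
  · intro k hk k' hk' hne p _ hp p' _ hp'
    simp only [dif_pos hk, dif_pos hk']
    have a := hlab ⟨k, hk⟩ p (Finset.mem_range.2 hp)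
    have b := hlab ⟨k', hk'⟩ p' (Finset.mem_range.2 hp')
    exact hd ⟨k, hk⟩ ⟨k', hk'⟩ (fun h => hne (Fin.mk.inj_iff.1 h)) _ a.1 a.2 _ b.1 b.2

theorem famFresh_proof (h1 : FreshReal) (h2 : RepBasics) (h3 : KilStmt) : FamFresh := by
  intro φ hφ l t ρ hB Y hY
  obtain ⟨κ, hκ⟩ := big_kind (l := l) (fun F hF => hF.1) hB
  have key : ∃ X : ℕ → MM, (∀ N, RF φ l t ρ κ N X) ∧
      ∀ p ∈ (Set.univ : Set ℕ), (∃ _ : ℕ, p < κ.1) → X p ∉ Y := by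
    refine h1 (fun _ => κ.1) (RF φ l t ρ κ) Set.univ (fun _ => le_refl _) ?_
      (fun N => intP_RF hφ l t ρ κ N κ.1) ?_ ?_ ?_ Y hY
    on_goal 1 => exact side1 φ l t ρ κ
    on_goal 1 => exact side2 h3 hφ l t ρ κ
    on_goal 1 => exact side3 φ l t ρ κ
    on_goal 1 => exact side4 h2 φ l t ρ κ hκ
  obtain ⟨X, hX, hXY⟩ := key
  choose f hf using hX
  have hmem : ∀ N u, Mem u (f N) ↔ (∃ q ∈ ρ, u = lit q) ∨
      ∃ p ∈ Finset.range κ.1, u = lit (X p, decide (p ∈ κ.2)) := by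
    intro N u
    constructor
    · intro hu
      exact (hf N).2.1 u (mem_lt hu).le hu
    · rintro (⟨q, hq, rfl⟩ | ⟨p, hp, rfl⟩)
      · exact (hf N).2.2.1 q hq
      · exact (hf N).2.2.2.1 p hp
  have heq : ∀ N, f N = f 0 := fun N => mem_ext fun u => by rw [hmem, hmem]
  obtain ⟨S, hS, hc⟩ := (h2.2.2.2.2.2.1 (f 0) l).1 (hf 0).2.2.2.2.1
  have hS' : ∀ q, q ∈ S ↔ Mem (lit q) (f 0) := fun q => by
    have := Set.ext_iff.1 (show (S : Set (MM × Bool)) = LS (f 0) from hS) q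
    exact this
  refine ⟨S, ⟨hc, (consis_iff h2 hS).2 (hf 0).2.2.2.2.2.1, f 0, hS, (hf 0).1, fun m => ?_⟩,
    fun q hq => (hS' q).2 ((hf 0).2.2.1 q hq), fun q hq hqρ => ?_⟩
  · rw [← heq m]; exact (hf m).2.2.2.2.2.2
  · rcases (hmem 0 _).1 ((hS' q).1 hq) with ⟨q', hq', e⟩ | ⟨p, hp, e⟩
    · exact absurd (by rw [h2.2.1 _ _ e]; exact hq') hqρ
    · rw [h2.2.1 _ _ e]
      exact hXY p (Set.mem_univ _) ⟨0, Finset.mem_range.1 hp⟩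

end Pool.Agent.BSig.H65
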