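import Pool.Agent.Helper37_BSig.Stmts

/-!
# The relation `RR` is internal
-/

namespace Pool.Agent.BSig.H65

open Pool.Agent.BSig Filter

theorem int1_mem (f : MM) : Int1 (fun x => Mem x f) :=
  Int1.of_delta0 (IsDelta0.mem (IsTerm.var 0) (IsTerm.param f))

theorem lt_pow2_of_mem {f b : MM} (h : ∀ u, Mem u f → u < b) : f < pow2 b := by
  obtain ⟨e, he, hm⟩ := (int1_mem f).code b
  have : e = f := mem_ext fun x => by
    rw [hm]; exact ⟨fun h => h.2, fun hx => ⟨h x hx, hx⟩⟩
  rw [← this]; exact he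

theorem isTerm_ext {P : ℕ} (q : ℕ) : IsTerm (fun v : Fin P → MM => ext v q) := by
  by_cases h : q < P
  · have : (fun v : Fin P → MM => ext v q) = fun v => v ⟨q, h⟩ := by
      funext v; simp only [ext, dif_pos h]
    rw [this]; exact IsTerm.var _
  · have : (fun v : Fin P → MM => ext v q) = fun _ => 0 := by
      funext v; simp only [ext, dif_neg h]
    rw [this]; exact IsTerm.param _

theorem isTerm_lit {k : ℕ} {g : (Fin k → MM) → MM} (hg : IsTerm g) (b : Bool) :
    IsTerm (fun v => lit (g v, b)) := by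
  have : (fun v => lit (g v, b)) = fun v => 2 * g v + (if b = true then (1 : MM) else 0) := rfl
  rw [this]
  exact ((IsTerm.param 2).mul hg).add (IsTerm.param _)

theorem isTerm_sum {k : ℕ} (n : ℕ) (g : ℕ → (Fin k → MM) → MM) (hg : ∀ p, IsTerm (g p)) :
    IsTerm (fun v => ∑ p ∈ Finset.range n, g p v) := by
  induction n with
  | zero => simp only [Finset.range_zero, Finset.sum_empty]; exact IsTerm.param 0
  | succ n ih =>
    simp only [Finset.sum_range_succ]
    exact ih.add (hg n)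

theorem le_sum (n : ℕ) (g : ℕ → MM) (p : ℕ) (hp : p < n) : g p ≤ ∑ q ∈ Finset.range n, g q := by
  induction n with
  | zero => omega
  | succ n ih =>
    rw [Finset.sum_range_succ]
    rcases Nat.lt_succ_iff_lt_or_eq.1 hp with h | h
    · exact (ih h).trans (le_add_right' _ _)
    · rw [h]; exact le_add_left' _ _

/-- The elements of `f` are literals given by `v` at the positions in `[lo, hi)`. -/
def SubL (Sg : Finset ℕ) (v : ℕ → MM) (lo hi : ℕ) (f : MM) : Prop :=
  ∀ u, u ≤ f → Mem u f → ∃ p ∈ Finset.Ico lo hi, u = lit (v p, decide (p ∈ Sg))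

theorem subL_iff (h : RepBasics) {Sg : Finset ℕ} {v : ℕ → MM} {lo hi : ℕ} {f : MM} :
    SubL Sg v lo hi f ↔ LS f ⊆ lits Sg v lo hi := by
  constructor
  · intro H q hq
    obtain ⟨p, hp, e⟩ := H (lit q) (mem_lt hq).le hq
    have e' := h.2.1 _ _ e
    rw [Finset.mem_Ico] at hp
    refine ⟨p, hp.1, hp.2, ?_, ?_⟩
    · rw [e']
    · rw [e']; simp
  · intro H u _ hm
    obtain ⟨q, rfl⟩ := h.1 u
    obtain ⟨p, h1, h2, h3, h4⟩ := H (show q ∈ LS f from hm)
    refine ⟨p, Finset.mem_Ico.2 ⟨h1, h2⟩, ?_⟩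
    congr 1
    refine Prod.ext h3 ?_
    have h4' : q.2 = true ↔ p ∈ Sg := h4.trans Finset.mem_coe
    show q.2 = decide (p ∈ Sg)
    by_cases h5 : p ∈ Sg
    · rw [decide_eq_true h5]; exact h4'.2 h5
    · rw [decide_eq_false h5]
      rw [← Bool.not_eq_true]
      exact fun h6 => h5 (h4'.1 h6)

theorem lits_finite (Sg : Set ℕ) (v : ℕ → MM) (lo hi : ℕ) : (lits Sg v lo hi).Finite := by
  classical
  refine Set.Finite.subset (Finset.finite_toSet
    ((Finset.Ico lo hi).image fun p => (v p, decide (p ∈ Sg)))) ?_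
  rintro q ⟨p, h1, h2, h3, h4⟩
  rw [Finset.mem_coe, Finset.mem_image]
  refine ⟨p, Finset.mem_Ico.2 ⟨h1, h2⟩, ?_⟩
  refine Prod.ext h3.symm ?_
  show decide (p ∈ Sg) = q.2
  by_cases h5 : p ∈ Sg
  · rw [decide_eq_true h5]; exact (h4.2 h5).symm
  · rw [decide_eq_false h5]
    symm
    rw [← Bool.not_eq_true]
    exact fun h6 => h5 (h4.1 h6)

theorem consis_iff (h : RepBasics) {f : MM} {F : Finset (MM × Bool)} (hr : Rep f F) :
    Consis (F : Set (MM × Bool)) ↔ ¬ Cfl f f := by
  unfold Consis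
  rw [h.2.2.2.2.1, ← show (F : Set (MM × Bool)) = LS f from hr]

theorem crd_iff (h : RepBasics) {f : MM} {F : Finset (MM × Bool)} (hr : Rep f F) {l : ℕ} :
    Crd f l ↔ F.card ≤ l := by
  rw [h.2.2.2.2.2.1]
  constructor
  · rintro ⟨S, hS, hc⟩
    have : S = F := Finset.coe_injective ((show (S : Set (MM × Bool)) = LS f from hS).trans
      (show (F : Set (MM × Bool)) = LS f from hr).symm)
    rw [← this]; exact hc
  · exact fun hc => ⟨F, hr, hc⟩

theorem IsDelta0.subL {k : ℕ} (Sg : Finset ℕ) (lo hi : ℕ) {g : ℕ → (Fin k → MM) → MM}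
    (hg : ∀ p, IsTerm (g p)) {f : (Fin k → MM) → MM} (hf : IsTerm f) :
    IsDelta0 (fun v => SubL Sg (fun p => g p v) lo hi (f v)) := by
  refine IsDelta0.all hf ?_
  refine (IsDelta0.mem (IsTerm.var 0) hf.tail).imp ?_
  refine IsDelta0.finsetEx _ _ fun p _ => ?_
  exact IsDelta0.eq (IsTerm.var 0) (isTerm_lit (hg p).tail _)

theorem isDelta0_RR (h : RepBasics) {φ : (Fin 5 → MM) → Prop} (hφ : IsDelta0 φ) (D : Dat)
    {k : ℕ} {g : ℕ → (Fin k → MM) → MM} (hg : ∀ p, IsTerm (g p)) {t : (Fin k → MM) → MM}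
    (ht : IsTerm t) : IsDelta0 (fun v => RR φ D (fun p => g p v) (t v)) := by
  have key : IsDelta0 (fun v : Fin k → MM => t v ≤ aa D.l ∧
      (∃ f, f ≤ aa D.l ∧ (SubL D.Sg (fun p => g p v) 0 D.nF f ∧ Crd f (D.l : MM) ∧ ¬ Cfl f f ∧
        Der φ (aa D.l) (D.l : MM) (D.m : MM) f (t v))) ∧
      ∀ e ∈ D.C, ∃ f, f ≤ pow2 (2 * (∑ p ∈ Finset.range e.2.2.1, g p v) + 2) ∧
        (SubL D.Sg (fun p => g p v) e.2.1 e.2.2.1 f ∧ ¬ Cfl f f ∧
          Kil φ (aa e.1) (e.1 : MM) (e.2.2.2 : MM) (t v) f)) := by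
    refine (IsDelta0.le ht (IsTerm.param _)).and (IsDelta0.and ?_ ?_)
    · refine IsDelta0.ex (IsTerm.param _) ?_
      refine (IsDelta0.subL D.Sg 0 D.nF (g := fun p w => g p (Fin.tail w))
        (fun p => (hg p).tail) (IsTerm.var 0)).and ?_
      refine (IsDelta0.crd (IsTerm.var 0) (IsTerm.param _)).and ?_
      refine (IsDelta0.cfl (IsTerm.var 0) (IsTerm.var 0)).not.and ?_
      exact hφ.der (IsTerm.param _) (IsTerm.param _) (IsTerm.param _) (IsTerm.var 0) ht.tail
    · refine IsDelta0.finsetAll _ _ fun e _ => ?_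
      refine IsDelta0.ex (((isTerm_sum e.2.2.1 g hg).two_mul.add_nat 2).pow2) ?_
      refine (IsDelta0.subL D.Sg e.2.1 e.2.2.1 (g := fun p w => g p (Fin.tail w))
        (fun p => (hg p).tail) (IsTerm.var 0)).and ?_
      refine (IsDelta0.cfl (IsTerm.var 0) (IsTerm.var 0)).not.and ?_
      exact IsDelta0.kil hφ (IsTerm.param _) (IsTerm.param _) (IsTerm.param _) ht.tail
        (IsTerm.var 0)
  refine key.congr fun v => ?_
  unfold RR
  refine and_congr_right fun _ => and_congr ?_ ?_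
  · constructor
    · rintro ⟨F, h1, h2, h3, f, hr, hf, hD⟩
      refine ⟨f, hf, ?_, (crd_iff h hr).2 h2, (consis_iff h hr).1 h3, hD⟩
      rw [subL_iff h, ← show (F : Set (MM × Bool)) = LS f from hr]; exact h1
    · rintro ⟨f, hf, h1, h2, h3, hD⟩
      rw [subL_iff h] at h1
      obtain ⟨F, hF⟩ := ((lits_finite _ _ _ _).subset h1).exists_finset_coe
      have hr : Rep f F := hF
      refine ⟨F, ?_, (crd_iff h hr).1 h2, (consis_iff h hr).2 h3, f, hr, hf, hD⟩
      rw [hF]; exact h1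
  · refine forall_congr' fun e => imp_congr_right fun _ => ?_
    constructor
    · rintro ⟨s, h1, h2, f, hr, hK⟩
      have h1' : LS f ⊆ lits D.Sg (fun p => g p v) e.2.1 e.2.2.1 := by
        rw [← show (s : Set (MM × Bool)) = LS f from hr]; exact h1
      refine ⟨f, ?_, (subL_iff h).2 h1', (consis_iff h hr).1 h2, hK⟩
      refine (lt_pow2_of_mem fun u hu => ?_).le
      obtain ⟨p, hp, e1⟩ := (subL_iff h).2 h1' u (mem_lt hu).le hu
      rw [Finset.mem_Ico] at hp
      have h3 : g p v ≤ ∑ q ∈ Finset.range e.2.2.1, g q v := le_sum _ (fun q => g q v) p hp.2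
      have h4 : (2 : MM) * g p v ≤ 2 * ∑ q ∈ Finset.range e.2.2.1, g q v := by
        have := PAExp.mul_le_mul' _ _ (2 : MM) h3
        rwa [mul_comm, mul_comm _ (2 : MM)] at this
      have h5 : (if decide (p ∈ D.Sg) = true then (1 : MM) else 0) < 2 := by
        have h01 : (0 : MM) < 1 := by
          have := (PAExp.discrete (0 : MM) 1).2 (by rw [zero_add])
          exact this
        have h12 : (1 : MM) < 2 := by
          refine (PAExp.discrete (1 : MM) 2).2 ?_
          norm_num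
        split_ifs
        · exact h12
        · exact h01.trans h12
      rw [e1]
      have h6 : lit (g p v, decide (p ∈ D.Sg)) =
        2 * g p v + (if decide (p ∈ D.Sg) = true then (1 : MM) else 0) := rfl
      rw [h6, PAExp.discrete]
      rw [PAExp.discrete] at h5
      rw [add_assoc]
      refine (PAExp.add_le_add' _ _ _ h4).trans ?_
      rw [add_comm, add_comm (2 * ∑ q ∈ Finset.range e.2.2.1, g q v)]
      exact PAExp.add_le_add' _ _ _ h5
    · rintro ⟨f, _, h1, h2, hK⟩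
      rw [subL_iff h] at h1
      obtain ⟨F, hF⟩ := ((lits_finite _ _ _ _).subset h1).exists_finset_coe
      have hr : Rep f F := hF
      refine ⟨F, ?_, (consis_iff h hr).2 h2, f, hr, hK⟩
      rw [hF]; exact h1

theorem rrInt_proof (h : RepBasics) : RRInt := by
  intro φ hφ D _
  exact IntP.of_delta0 (isDelta0_RR h hφ D (g := fun p (v : Fin (D.n + 1) → MM) => ext v (p + 1))
    (fun p => isTerm_ext _) (isTerm_ext 0))

end Pool.Agent.BSig.H65
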